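import Pool.Agent.H.MP_58728c_al.C

set_option autoImplicit false

namespace Pool.Agent.H.MP_456268_al

open Function Pointwise Pool.Agent.H.MP_4f47f1_al Pool.Agent.H.MP_44c8f1_al
  Pool.Agent.H.MP_58728c_al

lemma three {G : Type} [Group G] (H1 H2 H3 N : Subgroup G) [N.Normal] (h1 : ⁅⁅H2, H3⁆, H1⁆ ≤ N)
    (h2 : ⁅⁅H3, H1⁆, H2⁆ ≤ N) : ⁅⁅H1, H2⁆, H3⁆ ≤ N := by
  have key : ∀ K : Subgroup G, K ≤ N ↔ K.map (QuotientGroup.mk' N) = ⊥ := fun K => by
    rw [Subgroup.map_eq_bot_iff, QuotientGroup.ker_mk']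
  rw [key] at h1 h2 ⊢
  simp only [Subgroup.map_commutator] at h1 h2 ⊢
  exact Subgroup.commutator_commutator_eq_bot_of_rotate h1 h2

lemma lcs_comm {G : Type} [Group G] (j : ℕ) : ∀ i : ℕ,
    ⁅(⊤ : Subgroup G).lowerCentralSeries i, (⊤ : Subgroup G).lowerCentralSeries j⁆ ≤
      (⊤ : Subgroup G).lowerCentralSeries (i + j + 1) := by
  induction j with
  | zero => intro i; exact le_rfl
  | succ j ih =>
    intro i
    rw [Subgroup.commutator_comm, Subgroup.lowerCentralSeries_succ _ j]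
    apply three
    · rw [Subgroup.commutator_comm ⊤, ← Subgroup.lowerCentralSeries_succ,
        show i + (j + 1) + 1 = (i + 1) + j + 1 by ring]
      exact ih (i + 1)
    · exact Subgroup.commutator_mono (ih i) le_rfl

lemma filt {Y : Cl} (hY : Phi Y) (c : ℕ) : ∀ (G : Type) [Group G] (Γ : ℕ → Subgroup G)
    (H : Subgroup G), Γ 0 = ⊤ → (∀ i, Γ (i + 1) ≤ Γ i) → (∀ i j, ⁅Γ i, Γ j⁆ ≤ Γ (i + j)) →
    Γ (c + 1) = ⊥ → H ⊔ Γ 1 = ⊤ → Y G → Y H := by
  induction c with
  | zero =>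
    intro G _ Γ H _ _ _ h4 h5 hG
    rw [zero_add] at h4
    rw [h4, sup_bot_eq] at h5
    subst h5
    exact hY.iso Subgroup.topEquiv.symm hG
  | succ c ih =>
    intro G _ Γ H h1 h2 h3 h4 h5 hG
    have hn : ∀ i, (Γ i).Normal := fun i => ⟨fun n hn g => by
      have := h3 0 i (Subgroup.commutator_mem_commutator (h1 ▸ Subgroup.mem_top g) hn)
      rw [zero_add, commutatorElement_def] at this
      simpa using (Γ i).mul_mem this hn⟩
    let E := Gt (Γ 1)
    let p1 : E →* G := (MonoidHom.fst _ _).comp E.subtype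
    let p2 : E →* G := (MonoidHom.snd _ _).comp E.subtype
    let Δ : ℕ → Subgroup E := fun i => (Γ i).comap p1 ⊓ (Gt (Γ (i + 1))).comap E.subtype
    have mΔ : ∀ i (x : E), x ∈ Δ i ↔ x.1.1 ∈ Γ i ∧ x.1.1 * x.1.2⁻¹ ∈ Γ (i + 1) := fun _ _ => Iff.rfl
    have d1 : Δ 0 = ⊤ := eq_top_iff.2 fun x _ => (mΔ _ _).2 ⟨h1 ▸ Subgroup.mem_top _, x.2⟩
    have d3 : ∀ i j, ⁅Δ i, Δ j⁆ ≤ Δ (i + j) := by
      intro i j
      rw [Subgroup.commutator_le]
      rintro ⟨⟨x, y⟩, hxy⟩ ⟨a1, a2⟩ ⟨⟨z, w⟩, hzw⟩ ⟨b1, b2⟩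
      have a1' : x ∈ Γ i := a1
      have a2' : x * y⁻¹ ∈ Γ (i + 1) := a2
      have b1' : z ∈ Γ j := b1
      have b2' : z * w⁻¹ ∈ Γ (j + 1) := b2
      have a3 : y ∈ Γ i := by
        have := (Γ i).mul_mem ((Γ i).inv_mem (h2 i a2')) a1'
        simpa using this
      refine (mΔ _ _).2 ⟨h3 i j (Subgroup.commutator_mem_commutator a1' b1'), ?_⟩
      show x * z * x⁻¹ * z⁻¹ * (y * w * y⁻¹ * w⁻¹)⁻¹ ∈ Γ (i + j + 1)
      have c1 := h3 (i + 1) j (Subgroup.commutator_mem_commutator a2' ((hn j).conj_mem _ b1' y))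
      have c2 := h3 i (j + 1) (Subgroup.commutator_mem_commutator a3 b2')
      have c3 := h3 (j + 1) i (Subgroup.commutator_mem_commutator b2'
        ((Γ i).mul_mem a3 ((hn i).conj_mem _ ((Γ i).inv_mem a3) w)))
      rw [show i + 1 + j = i + j + 1 by ring] at c1
      rw [show j + 1 + i = i + j + 1 by ring] at c3
      have := (Γ (i + j + 1)).mul_mem ((Γ (i + j + 1)).mul_mem c1 c2) c3
      simp only [commutatorElement_def] at this
      convert this using 1
      group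
    have dn : (Δ (c + 1)).Normal := ⟨fun n hn g => by
      have := d3 0 (c + 1) (Subgroup.commutator_mem_commutator (d1 ▸ Subgroup.mem_top g) hn)
      rw [zero_add, commutatorElement_def] at this
      simpa using (Δ (c + 1)).mul_mem this hn⟩
    let π := QuotientGroup.mk' (Δ (c + 1))
    have sπ : Surjective π := QuotientGroup.mk'_surjective _
    let H' : Subgroup E := H.comap p1
    have hd : ∀ x : G, ∃ a ∈ H, ∃ n ∈ Γ 1, x = a * n := by
      intro x
      have : x ∈ (H : Set G) * (Γ 1 : Set G) := by rw [← Subgroup.mul_normal, h5]; trivial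
      obtain ⟨a, ha, n, hn, rfl⟩ := this
      exact ⟨a, ha, n, hn, rfl⟩
    have s1 : Surjective p1 := fun x => ⟨⟨(x, x), show x * x⁻¹ ∈ Γ 1 by simp⟩, rfl⟩
    have s2 : Surjective p2 := fun x => ⟨⟨(x, x), show x * x⁻¹ ∈ Γ 1 by simp⟩, rfl⟩
    have hE : Y (E ⧸ Δ (c + 1)) := hY.qr p1 p2 π s1 s2 sπ hG hG (by
      rintro ⟨⟨a, b⟩, h⟩ ⟨e1, e2⟩
      have : (⟨(a, b), h⟩ : E) = 1 := Subtype.ext (Prod.ext e1 e2)
      rw [this]; exact Subgroup.one_mem _)
    have hH := ih _ (fun i => (Δ i).map π) (H'.map π)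
      (by rw [d1]; exact Subgroup.map_top_of_surjective _ sπ)
      (fun i => Subgroup.map_mono fun x hx => (mΔ _ _).2 ⟨h2 i hx.1, h2 (i + 1) hx.2⟩)
      (fun i j => by rw [← Subgroup.map_commutator]; exact Subgroup.map_mono (d3 i j))
      (by rw [Subgroup.map_eq_bot_iff, QuotientGroup.ker_mk'])
      (by
        rw [← Subgroup.map_sup]
        have : H' ⊔ Δ 1 = ⊤ := by
          rw [eq_top_iff]
          rintro ⟨⟨x, y⟩, hxy⟩ _
          obtain ⟨a, ha, n, hn', rfl⟩ := hd x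
          have e : (⟨(a * n, y), hxy⟩ : E) = ⟨(a, y * n⁻¹), by
              show a * (y * n⁻¹)⁻¹ ∈ Γ 1
              have : a * n * y⁻¹ ∈ Γ 1 := hxy
              simpa [mul_assoc] using this⟩ * ⟨(n, n), show n * n⁻¹ ∈ Γ 1 by simp⟩ := by
            ext <;> simp
          rw [e]
          exact Subgroup.mul_mem_sup ha ((mΔ _ _).2 ⟨hn', by simp⟩)
        rw [this]; exact Subgroup.map_top_of_surjective _ sπ) hE
    refine hY.qr ((π.comp H'.subtype).codRestrict (H'.map π) fun x => Subgroup.mem_map_of_mem _ x.2)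
      (p2.comp H'.subtype) ((p1.comp H'.subtype).codRestrict H fun x => x.2) ?_ ?_ ?_ hH hG ?_
    · rintro ⟨_, x, hx, rfl⟩
      exact ⟨⟨x, hx⟩, rfl⟩
    · intro y
      obtain ⟨a, ha, n, hn', rfl⟩ := hd y
      refine ⟨⟨⟨(a, a * n), ?_⟩, ha⟩, rfl⟩
      show a * (a * n)⁻¹ ∈ Γ 1
      have := (hn 1).conj_mem _ ((Γ 1).inv_mem hn') a
      simpa [mul_assoc] using this
    · rintro ⟨a, ha⟩
      exact ⟨⟨⟨(a, a), show a * a⁻¹ ∈ Γ 1 by simp⟩, ha⟩, rfl⟩
    · rintro ⟨⟨⟨a, b⟩, h⟩, h'⟩ ⟨e1, e2⟩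
      have f1 : (⟨(a, b), h⟩ : E) ∈ Δ (c + 1) :=
        (QuotientGroup.eq_one_iff _).1 (congrArg Subtype.val e1)
      have f2 : b = 1 := e2
      have f3 := ((mΔ _ _).1 f1).2
      rw [h4] at f3
      subst f2
      apply Subtype.ext
      show a = 1
      simpa using f3

def gam (G : Type) [Group G] : ℕ → Subgroup G
  | 0 => ⊤
  | j + 1 => (⊤ : Subgroup G).lowerCentralSeries j

lemma gam_succ (G : Type) [Group G] (j : ℕ) :
    gam G (j + 1) = (⊤ : Subgroup G).lowerCentralSeries j := rfl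

lemma hered {Y : Cl} (hY : Phi Y) {G : Type} [Group G] [hn : Group.IsNilpotent G] (hG : Y G)
    (H : Subgroup G) : Y H := by
  obtain ⟨c, hc⟩ := Subgroup.nilpotent_iff_lowerCentralSeries.1 hn
  have h1 : gam G 1 = ⊤ := rfl
  have h0 : gam G 0 = ⊤ := rfl
  refine filt hY c G (gam G) H h0 ?_ ?_ (by rw [gam_succ, hc]) (by rw [h1, sup_top_eq]) hG
  · rintro (_ | i)
    · rw [h0]; exact le_top
    · rw [gam_succ, gam_succ]; exact Subgroup.lowerCentralSeries_antitone _ (Nat.le_succ i)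
  · rintro (_ | i) (_ | j)
    · rw [h0]; exact le_top
    · rw [zero_add, gam_succ]; exact Subgroup.commutator_le_right _ _
    · rw [add_zero, gam_succ]; exact Subgroup.commutator_le_left _ _
    · rw [show i + 1 + (j + 1) = (i + j + 1) + 1 by ring, gam_succ, gam_succ, gam_succ]
      exact lcs_comm j i

lemma hered_p {p : ℕ} (hp : p.Prime) (A : NF) (hA : Le A (Np p)) {X G : Type} [Group X] [Group G]
    (φ : X →* G) (hφ : Injective φ) (hG : A.mem G) : A.mem X := by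
  have := Fact.mk hp
  have := (hA G hG).1
  have := (hA G hG).2.isNilpotent
  exact A.ok.iso (MonoidHom.ofInjective hφ).symm (hered A.ok hG _)

def PiC (n : ℕ) : Cl := fun G _ => Finite G ∧ ∀ p : ℕ, p.Prime → p ∣ Nat.card G → p ∣ n

lemma phi_PiC (n : ℕ) : Phi (PiC n) := by
  refine ⟨fun G _ h => h.1, ?_, ?_⟩
  · rintro G Y _ _ f hf ⟨_, h⟩
    exact ⟨Finite.of_surjective f hf, fun p hp hd =>
      h p hp (hd.trans (Subgroup.card_dvd_of_surjective f hf))⟩
  · rintro G _ N1 N2 _ _ hb ⟨f1, h1⟩ ⟨f2, h2⟩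
    refine ⟨phi_fin.2.2 G N1 N2 hb f1 f2, fun p hp hd => ?_⟩
    have : Injective ((QuotientGroup.mk' N1).prod (QuotientGroup.mk' N2)) := by
      rw [← MonoidHom.ker_eq_bot_iff, MonoidHom.ker_prod, QuotientGroup.ker_mk',
        QuotientGroup.ker_mk', hb]
    have h3 := hd.trans (Subgroup.card_dvd_of_injective _ this)
    rw [Nat.card_prod] at h3
    rcases hp.dvd_mul.1 h3 with h | h
    · exact h1 p hp h
    · exact h2 p hp h

lemma sat_PiC (n : ℕ) : Sat (PiC n) := by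
  rintro G _ _ ⟨_, h⟩
  refine ⟨inferInstance, fun p hp hd => h p hp ?_⟩
  by_contra hn
  have := Fact.mk hp
  obtain ⟨P⟩ : Nonempty (Sylow p (frattini G)) := inferInstance
  have := frattini_nilpotent (G := G)
  have hPn : (P : Subgroup (frattini G)).Normal := inferInstance
  have hPc : (P : Subgroup (frattini G)).Characteristic := Sylow.characteristic_of_normal P hPn
  set N := (P : Subgroup (frattini G)).map (frattini G).subtype with hN
  have hNn : N.Normal := inferInstance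
  have hNp : IsPGroup p N := P.isPGroup'.map _
  have hi : ¬ p ∣ N.index := by
    rw [hN, Subgroup.index_map_of_injective _ (Subgroup.subtype_injective _), Subgroup.range_subtype]
    intro h0
    rcases hp.dvd_mul.1 h0 with h | h
    · exact P.not_dvd_index h
    · exact hn h
  obtain ⟨k, hk⟩ := IsPGroup.iff_card.1 hNp
  obtain ⟨H, hH⟩ := Subgroup.exists_right_complement'_of_coprime (N := N) (by
    rw [hk]; exact ((hp.coprime_iff_not_dvd.2 hi)).pow_left k)
  have h1 : H = ⊤ := by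
    apply frattini_nongenerating
    rw [eq_top_iff, ← hH.sup_eq_top, sup_comm]
    exact sup_le_sup_left (Subgroup.map_subtype_le _) _
  have h2 : N = ⊥ := by
    have := hH.disjoint
    rw [h1] at this
    exact disjoint_top.1 this
  rw [h2, Subgroup.index_bot] at hi
  exact hi hd

def JP (P : Type) [Group P] : Prop := Nontrivial P ∧ ∀ N1 N2 : Subgroup P, N1.Normal → N2.Normal →
  (∀ a ∈ N1, ∀ b ∈ N2, a * b = b * a) → N1 = ⊥ ∨ N2 = ⊥

def NQ (P : Type) [Group P] : Cl := fun G _ => Finite G ∧ ∀ f : G →* P, ¬ Surjective f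

lemma phi_NQ (P : Type) [Group P] (hP : JP P) : Phi (NQ P) := by
  refine ⟨fun G _ h => h.1, ?_, ?_⟩
  · rintro G Y _ _ f hf ⟨_, h⟩
    exact ⟨Finite.of_surjective f hf, fun g hg => h (g.comp f) (hg.comp hf)⟩
  · rintro G _ N1 N2 hN1 hN2 hb ⟨f1, h1⟩ ⟨f2, h2⟩
    refine ⟨phi_fin.2.2 G N1 N2 hb f1 f2, fun f hf => ?_⟩
    rcases hP.2 (N1.map f) (N2.map f) (hN1.map f hf) (hN2.map f hf) (by
      rintro _ ⟨a, ha, rfl⟩ _ ⟨b, hb', rfl⟩
      rw [← map_mul, ← map_mul,
        (Subgroup.commute_of_normal_of_disjoint N1 N2 hN1 hN2 (disjoint_iff.2 hb) a b ha hb').eq])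
      with h | h
    · exact h1 _ (lift_surj N1 f ((Subgroup.map_eq_bot_iff _).1 h) hf)
    · exact h2 _ (lift_surj N2 f ((Subgroup.map_eq_bot_iff _).1 h) hf)

lemma sat_NQ (P : Type) [Group P] (hP : JP P) : Sat (NQ P) := by
  rintro G _ _ ⟨_, h⟩
  refine ⟨inferInstance, fun f hf => ?_⟩
  have := Finite.of_surjective f hf
  have hF : frattini P = ⊥ := by
    by_contra hne
    have := (Subgroup.nontrivial_iff_ne_bot _).2 hne
    have := frattini_nilpotent (G := P)
    have hz : Subgroup.center (frattini P) ≠ ⊥ := Group.IsNilpotent.center_ne_bot _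
    have hn : ((Subgroup.center (frattini P)).map (frattini P).subtype).Normal := inferInstance
    have := hP.2 _ _ hn hn (by
      rintro _ ⟨a, ha, rfl⟩ _ ⟨b, hb, rfl⟩
      exact congrArg Subtype.val (Subgroup.mem_center_iff.1 hb a))
    rw [or_self, Subgroup.map_eq_bot_iff_of_injective _ (Subgroup.subtype_injective _)] at this
    exact hz this
  refine h _ (lift_surj (frattini G) f ?_ hf)
  have := frattini_le_comap_frattini_of_surjective hf
  rwa [hF] at this

end Pool.Agent.H.MP_456268_al
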