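import Pool.Agent.H.MP_456268_al.A

set_option autoImplicit false

namespace Pool.Agent.H.MP_456268_al

open Function Pointwise Pool.Agent.H.MP_4f47f1_al Pool.Agent.H.MP_44c8f1_al
  Pool.Agent.H.MP_58728c_al

lemma lift_psub {G Y : Type} [Group G] [Group Y] [Finite G] (f : G →* Y) (hf : Surjective f)
    (p : ℕ) (hp : p.Prime) (Q : Subgroup Y) (hQ : IsPGroup p Q) :
    ∃ (P : Sylow p (Q.comap f)), ((P : Subgroup (Q.comap f)).map (Q.comap f).subtype).map f = Q := by
  have := Fact.mk hp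
  obtain ⟨P⟩ : Nonempty (Sylow p (Q.comap f)) := inferInstance
  let φ : Q.comap f →* Q := (f.comp (Q.comap f).subtype).codRestrict Q (fun x => x.2)
  have sφ : Surjective φ := by
    rintro ⟨y, hy⟩
    obtain ⟨x, rfl⟩ := hf y
    exact ⟨⟨x, hy⟩, rfl⟩
  have htop : (P : Subgroup (Q.comap f)).map φ = ⊤ :=
    ((P.mapSurjective sφ).is_maximal' (Q := ⊤) (hQ.to_subgroup ⊤) le_top).symm
  refine ⟨P, le_antisymm ?_ fun y hy => ?_⟩
  · rintro _ ⟨_, ⟨x, -, rfl⟩, rfl⟩
    exact x.2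
  · obtain ⟨x, hx, hxy⟩ : (⟨y, hy⟩ : Q) ∈ (P : Subgroup (Q.comap f)).map φ :=
      htop ▸ Subgroup.mem_top _
    exact ⟨x, Subgroup.mem_map_of_mem _ hx, congrArg Subtype.val hxy⟩

lemma frat_lift {G : Type} [Group G] [Finite G] (p : ℕ) (hp : p.Prime)
    (Pb : Subgroup (G ⧸ frattini G)) (a1 : Pb.Normal) (a2 : IsPGroup p Pb) :
    ∃ P : Subgroup G, P.Normal ∧ IsPGroup p P ∧ ∀ (x : G) (k : ℕ), x ^ p ^ k = 1 →
      (x : G ⧸ frattini G) ∈ Pb → x ∈ P := by
  have := Fact.mk hp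
  let L := Pb.comap (QuotientGroup.mk' (frattini G))
  obtain ⟨P, hP⟩ : ∃ P : Sylow p L, ((P : Subgroup L).map L.subtype).map
      (QuotientGroup.mk' (frattini G)) = Pb :=
    lift_psub _ (QuotientGroup.mk'_surjective (frattini G)) p hp Pb a2
  have hLn : L.Normal := a1.comap _
  have hle : L ≤ (P : Subgroup L).map L.subtype ⊔ frattini G := by
    have := Subgroup.comap_map_eq (QuotientGroup.mk' (frattini G)) ((P : Subgroup L).map L.subtype)
    rw [hP, QuotientGroup.ker_mk'] at this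
    exact this.le
  have h1 := Sylow.normalizer_sup_eq_top P
  have h2 : Subgroup.normalizer (((P : Subgroup L).map L.subtype : Subgroup G) : Set G) = ⊤ := by
    apply frattini_nongenerating
    rw [eq_top_iff, ← h1]
    exact sup_le le_sup_left (hle.trans (sup_le_sup_right Subgroup.le_normalizer _))
  have h3 : ((P : Subgroup L).map L.subtype).Normal := Subgroup.normalizer_eq_top_iff.1 h2
  refine ⟨_, h3, P.isPGroup'.map _, fun t k ht h4 => ?_⟩
  have h5 : (P : Subgroup L).Normal := by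
    have := h3.comap L.subtype
    rwa [Subgroup.comap_map_eq_self_of_injective (Subgroup.subtype_injective _)] at this
  have h6 : IsPGroup p (Subgroup.zpowers (⟨t, h4⟩ : L)) := by
    rintro ⟨_, j, rfl⟩
    refine ⟨k, Subtype.ext (Subtype.ext ?_)⟩
    show (t ^ j) ^ p ^ k = 1
    rw [← zpow_natCast, ← zpow_mul, mul_comm, zpow_mul, zpow_natCast, ht, one_zpow]
  obtain ⟨Q, hQ⟩ := h6.exists_le_sylow
  have := P.unique_of_normal h5
  rw [Subsingleton.elim Q P] at hQ
  exact Subgroup.mem_map_of_mem L.subtype (hQ (Subgroup.mem_zpowers _))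

def YC (c : ℕ) : Cl := fun G _ => Finite G ∧ ∀ p : ℕ, p.Prime → ∃ P : Subgroup G, P.Normal ∧
  IsPGroup p P ∧ ∀ Q : Subgroup G, IsPGroup p Q → Q.lowerCentralSeries c ≤ P

lemma phi_YC (c : ℕ) : Phi (YC c) := by
  refine ⟨fun G _ h => h.1, ?_, ?_⟩
  · rintro G Y _ _ f hf ⟨_, h⟩
    refine ⟨Finite.of_surjective f hf, fun p hp => ?_⟩
    obtain ⟨P, h1, h2, h3⟩ := h p hp
    refine ⟨P.map f, h1.map f hf, h2.map f, fun Q hQ => ?_⟩
    obtain ⟨R, hR⟩ := lift_psub f hf p hp Q hQ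
    rw [← hR, ← Subgroup.map_lowerCentralSeries]
    exact Subgroup.map_mono (h3 _ (R.isPGroup'.map _))
  · rintro G _ N1 N2 _ _ hb ⟨f1, h1⟩ ⟨f2, h2⟩
    refine ⟨phi_fin.2.2 G N1 N2 hb f1 f2, fun p hp => ?_⟩
    obtain ⟨P, a1, a2, a3⟩ := h1 p hp
    obtain ⟨Q, b1, b2, b3⟩ := h2 p hp
    refine ⟨P.comap (QuotientGroup.mk' N1) ⊓ Q.comap (QuotientGroup.mk' N2), inferInstance, ?_, ?_⟩
    · rintro ⟨x, hx1, hx2⟩
      obtain ⟨i, hi⟩ := a2 ⟨_, hx1⟩
      obtain ⟨j, hj⟩ := b2 ⟨_, hx2⟩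
      have hi' : ((x : G ⧸ N1)) ^ p ^ i = 1 := congrArg Subtype.val hi
      have hj' : ((x : G ⧸ N2)) ^ p ^ j = 1 := congrArg Subtype.val hj
      refine ⟨i + j, Subtype.ext ?_⟩
      have : x ^ p ^ (i + j) ∈ N1 ⊓ N2 := by
        constructor
        · apply (QuotientGroup.eq_one_iff _).1
          rw [QuotientGroup.mk_pow, pow_add, pow_mul, hi', one_pow]
        · apply (QuotientGroup.eq_one_iff _).1
          rw [QuotientGroup.mk_pow, pow_add, mul_comm, pow_mul, hj', one_pow]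
      rw [hb] at this
      exact this
    · intro R hR
      refine le_inf ?_ ?_
      · rw [← Subgroup.map_le_iff_le_comap, Subgroup.map_lowerCentralSeries]
        exact a3 _ (hR.map _)
      · rw [← Subgroup.map_le_iff_le_comap, Subgroup.map_lowerCentralSeries]
        exact b3 _ (hR.map _)

lemma sat_YC (c : ℕ) : Sat (YC c) := by
  rintro G _ _ ⟨_, h⟩
  refine ⟨inferInstance, fun p hp => ?_⟩
  obtain ⟨Pb, a1, a2, a3⟩ := h p hp
  obtain ⟨P, b1, b2, b3⟩ := frat_lift p hp Pb a1 a2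
  refine ⟨P, b1, b2, fun Q hQ x hx => ?_⟩
  have hxQ : x ∈ Q := Subgroup.lowerCentralSeries_antitone Q (Nat.zero_le c) hx
  obtain ⟨k, hk⟩ := hQ ⟨x, hxQ⟩
  refine b3 x k (congrArg Subtype.val hk) (a3 _ (hQ.map (QuotientGroup.mk' (frattini G))) ?_)
  rw [← Subgroup.map_lowerCentralSeries]
  exact Subgroup.mem_map_of_mem _ hx

lemma self_YC (G : Type) [Group G] [Finite G] : ∃ c, YC c G := by
  have h : ∀ Q : Subgroup G, ∃ c, Group.IsNilpotent Q → Q.lowerCentralSeries c = ⊥ := by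
    intro Q
    by_cases hQ : Group.IsNilpotent Q
    · obtain ⟨c, hc⟩ := (Subgroup.isNilpotent_iff_lowerCentralSeries Q).1 hQ
      exact ⟨c, fun _ => hc⟩
    · exact ⟨0, fun h => (hQ h).elim⟩
  choose c hc using h
  obtain ⟨m, hm⟩ := (Set.finite_range c).bddAbove
  refine ⟨m, inferInstance, fun p hp => ⟨⊥, inferInstance, IsPGroup.of_bot, fun Q hQ => ?_⟩⟩
  have := Fact.mk hp
  rw [← hc Q hQ.isNilpotent]
  exact Subgroup.lowerCentralSeries_antitone Q (hm ⟨Q, rfl⟩)

lemma cb_right {T C : Type} [Group T] [Group C] (f r : Wr T C) (h : f.right = 1) :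
    (f * r * f⁻¹ * r⁻¹).right = 1 := by simp [h]

lemma cb_left {T C : Type} [Group T] [Group C] (f r : Wr T C) (h : f.right = 1) (y : C) :
    (f * r * f⁻¹ * r⁻¹).left y =
      f.left y * (r.left y * (f.left (r.right⁻¹ * y))⁻¹ * (r.left y)⁻¹) := by
  simp [h, mul_assoc]

noncomputable def sg {T C : Type} [Group T] [Group C] (q : C) (t : T) : Wr T C := by
  classical exact ⟨Pi.mulSingle q t, 1⟩

lemma sg_right {T C : Type} [Group T] [Group C] (q : C) (t : T) : (sg q t).right = 1 := rfl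

lemma sg_self {T C : Type} [Group T] [Group C] (q : C) (t : T) : (sg q t).left q = t := by
  simp [sg]

lemma sg_ne {T C : Type} [Group T] [Group C] (q : C) (t : T) (y : C) (h : y ≠ q) :
    (sg q t).left y = 1 := by
  simp [sg, h]

lemma normal_proj {T C : Type} [Group T] [Group C] (R : Subgroup (Wr T C)) [hR : R.Normal]
    (r : Wr T C) (hr : r ∈ R) (h : r.right ≠ 1) (t : T) :
    ∃ c ∈ R, c.right = 1 ∧ c.left 1 = t ∧ ∀ y, y ≠ 1 → y ≠ r.right → c.left y = 1 := by
  refine ⟨sg 1 t * r * (sg 1 t)⁻¹ * r⁻¹, R.mul_mem (hR.conj_mem _ hr _) (R.inv_mem hr),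
    cb_right _ _ rfl, ?_, fun y h1 h2 => ?_⟩
  · rw [cb_left _ _ rfl, sg_self, sg_ne _ _ _ (by simpa using h)]; simp
  · rw [cb_left _ _ rfl, sg_ne _ _ _ h1, sg_ne _ _ _ (fun h3 => h2 (by
      rw [inv_mul_eq_one] at h3; exact h3.symm))]; simp

lemma JP_wr {S C : Type} [Group S] [Group C] (hs : IsSimpleGroup S)
    (hn : ¬ ∀ a b : S, a * b = b * a) : JP (Wr S C) := by
  have key : ∀ N : Subgroup (Wr S C), N.Normal → N ≠ ⊥ → ∀ t : S, ∃ c ∈ N, c.right = 1 ∧
      c.left 1 = t := by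
    intro N hN hb t
    obtain ⟨⟨n, hn⟩, h1⟩ := Subgroup.ne_bot_iff_exists_ne_one.1 hb
    by_cases hr : n.right = 1
    · let R : Subgroup (Wr S C) := N ⊓ (RegularWreathProduct.rightHom).ker
      have hR : ∀ x ∈ R, x.right = 1 := fun x hx => hx.2
      obtain ⟨a1, a2⟩ := wr0 R hR
      rcases hs.eq_bot_or_eq_top_of_normal _ a1 with h | h
      · exfalso
        apply h1
        ext q
        · have : n.left q ∈ (ev R hR 1).range := a2 q ▸ ⟨⟨n, hn, hr⟩, rfl⟩
          rw [h] at this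
          exact this
        · exact hr
      · obtain ⟨c, hc⟩ : t ∈ (ev R hR 1).range := h ▸ Subgroup.mem_top t
        exact ⟨c.1, c.2.1, c.2.2, hc⟩
    · obtain ⟨c, c1, c2, c3, -⟩ := normal_proj N n hn hr t
      exact ⟨c, c1, c2, c3⟩
  refine ⟨?_, fun N1 N2 h1 h2 hc => ?_⟩
  · obtain ⟨s, hs⟩ := exists_ne (1 : S)
    exact ⟨sg 1 s, 1, fun h => hs (by rw [← sg_self (1 : C) s, h]; rfl)⟩
  by_contra hcon
  push Not at hcon
  refine hn fun a b => ?_
  obtain ⟨x, x1, x2, rfl⟩ := key N1 h1 hcon.1 a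
  obtain ⟨y, y1, y2, rfl⟩ := key N2 h2 hcon.2 b
  have := congrFun (congrArg RegularWreathProduct.left (hc x x1 y y1)) 1
  simpa [x2, y2] using this

structure Bd (F : NF) : Prop where
  h1 : ∃ e, 0 < e ∧ LY e F
  h2 : ∃ n, 0 < n ∧ (∀ (G : Type) [Group G], F.mem G → PiC n G) ∧
    ∀ (P : Type) [Group P], JP P → n < Nat.card P → ∀ (G : Type) [Group G], F.mem G → NQ P G
  h3 : ∃ c, ∀ (G : Type) [Group G], F.mem G → YC c G

lemma Bd.mono {F U : NF} (h : Bd F) (hU : Le U F) : Bd U := by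
  obtain ⟨⟨e, a1, a2⟩, ⟨n, b1, b2, b3⟩, ⟨c, c1⟩⟩ := h
  exact ⟨⟨e, a1, fun G _ hG => a2 G (hU G hG)⟩, ⟨n, b1, fun G _ hG => b2 G (hU G hG),
    fun P _ p1 p2 G _ hG => b3 P p1 p2 G (hU G hG)⟩, ⟨c, fun G _ hG => c1 G (hU G hG)⟩⟩

open Classical in
noncomputable def nu {T Ab Y Z : Type} [Group T] [CommGroup Ab] [Group Y] [Group Z] [Finite Y]
    (φ : T →* Ab) (π : Y →* Z) : Wr T Y →* Wr Ab Z :=
  haveI := Fintype.ofFinite Y
  MonoidHom.mk' (fun w => ⟨fun z => ∏ y, if π y = z then φ (w.left y) else 1, π w.right⟩)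
    (fun a b => by
      ext z
      · simp only [RegularWreathProduct.mul_left, Pi.mul_apply, map_mul]
        rw [← Equiv.prod_comp (Equiv.mulLeft a.right⁻¹)
          (fun y => if π y = (π a.right)⁻¹ * z then φ (b.left y) else 1), ← Finset.prod_mul_distrib]
        refine Finset.prod_congr rfl fun y _ => ?_
        simp only [Equiv.coe_mulLeft, map_mul, map_inv, mul_right_inj]
        split_ifs <;> simp
      · simp)

lemma nu_surj {T Ab Y Z : Type} [Group T] [CommGroup Ab] [Group Y] [Group Z] [Finite Y]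
    (φ : T →* Ab) (π : Y →* Z) (h1 : Surjective φ) (h2 : Surjective π) : Surjective (nu φ π) := by
  classical
  rintro ⟨l, r⟩
  choose σ hσ using h2
  choose τ hτ using h1
  refine ⟨⟨fun y => if y = σ (π y) then τ (l (π y)) else 1, σ r⟩, ?_⟩
  ext z
  · simp only [nu, MonoidHom.mk'_apply]
    rw [Finset.prod_eq_single (σ z)]
    · simp [hσ, hτ]
    · intro y _ hy
      split_ifs with a b
      · exact (hy (by rw [← a]; exact b)).elim
      · simp
      · rfl
    · simp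
  · simp [nu, hσ]

lemma wr_mono (U : NF) {S Y Z : Type} [Group S] [Group Y] [Group Z] [Finite Y]
    (hc : ∀ a b : S, a * b = b * a) (π : Y →* Z) (h2 : Surjective π) (h : U.mem (Wr S Y)) :
    U.mem (Wr S Z) := by
  let _ : CommGroup S := { (inferInstance : Group S) with mul_comm := hc }
  exact U.ok.2.1 _ _ _ (nu_surj (MonoidHom.id S) π surjective_id h2) h

def Gen (U : NF) (C : Type) [Group C] : Prop :=
  U.mem C ∧ ∀ (Y : Type) [Group Y] (π : Y →* C), Surjective π → Finite Y →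
    ∀ (S : Type) [Group S], IsSimpleGroup S → ¬ U.mem (Wr S Y)

lemma Gen.up {U : NF} {C Y : Type} [Group C] [Group Y] (h : Gen U C) (π : Y →* C)
    (hπ : Surjective π) (hY : U.mem Y) : Gen U Y :=
  ⟨hY, fun Z _ ρ hρ => h.2 Z (π.comp ρ) (hπ.comp hρ)⟩

lemma Gen.self {U : NF} {C : Type} [Group C] (h : Gen U C) (S : Type) [Group S]
    (hs : IsSimpleGroup S) : ¬ U.mem (Wr S C) :=
  h.2 C (MonoidHom.id C) surjective_id (U.ok.1 C h.1) S hs

lemma mem_pi (U : NF) {C : Type} [Group C] (h : U.mem C) (ι : Type) [Finite ι] : U.mem (ι → C) := by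
  have := U.ok.1 C h
  refine mem_of_res_bot U (eq_bot_iff.2 fun x hx => ?_)
  rw [Subgroup.mem_bot]
  funext i
  exact res_le U (Pi.evalMonoidHom (fun _ : ι => C) i) (Function.surjective_eval i) h hx

lemma simple_comm {S : Type} [Group S] [Finite S] (hs : IsSimpleGroup S)
    (hc : ∀ a b : S, a * b = b * a) : (Nat.card S).Prime ∧ IsPGroup (Nat.card S) S := by
  let _ : CommGroup S := { (inferInstance : Group S) with mul_comm := hc }
  exact ⟨IsSimpleGroup.prime_card, IsPGroup.of_card (n := 1) (by simp)⟩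

lemma fin_base (U : NF) {S Y : Type} [Group S] [Group Y] (h : U.mem (Wr S Y)) : Finite S := by
  have := U.ok.1 _ h
  exact Finite.of_injective (fun s : S => (⟨fun _ => s, 1⟩ : Wr S Y)) fun a b hab =>
    congrFun (congrArg RegularWreathProduct.left hab) 1

lemma pg_comm {p : ℕ} (hp : p.Prime) {S : Type} [Group S] [Finite S] (a : IsSimpleGroup S)
    (h : IsPGroup p S) : ∀ a b : S, a * b = b * a := by
  have := Fact.mk hp
  have := h.isNilpotent
  exact IsSimpleGroup.comm_iff_isSolvable.2 (inferInstance : Group.IsSolvable S)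

def NA (U : NF) : Prop := ∀ p, p.Prime → ¬ Le (Np p * U) U

lemma exists_gen (U : NF) (hb : Bd U) (h1 : U ≠ 1) (hn : NA U) :
    ∃ (C : Type) (_ : Group C), Gen U C := by
  obtain ⟨n, b1, b2, b3⟩ := hb.h2
  have key : ∀ m : ℕ, ∃ (C : Type) (_ : Group C), U.mem C ∧ n ≤ Nat.card C ∧ ∀ p, p.Prime → p < m →
      ∀ (S : Type) (_ : Group S), IsSimpleGroup S → IsPGroup p S → ¬ U.mem (Wr S C) := by
    intro m
    induction m with
    | zero =>
      obtain ⟨S, _, s1, s2⟩ := exists_simple U h1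
      have := U.ok.1 S s2
      refine ⟨Fin n → S, _, mem_pi U s2 _, ?_, fun p _ h => by omega⟩
      rw [Nat.card_fun, Nat.card_eq_fintype_card (α := Fin n), Fintype.card_fin]
      exact (Nat.lt_pow_self Finite.one_lt_card).le
    | succ m ih =>
      obtain ⟨W, _, hW, w1, w2⟩ := ih
      by_cases hm : m.Prime
      · obtain ⟨C, _, hC, h⟩ : ∃ (C : Type) (_ : Group C), U.mem C ∧ ∀ (S : Type) (_ : Group S),
            IsSimpleGroup S → IsPGroup m S → ¬ U.mem (Wr S (C × W)) := by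
          by_contra hc
          push Not at hc
          exact hn m hm (l2 hm U W hW fun C _ hC => hc C _ hC)
        have := U.ok.1 C hC
        have := U.ok.1 W hW
        refine ⟨C × W, _, mem_prod U hC hW, ?_, fun p hp hpm S _ s1 s2 s3 => ?_⟩
        · rw [Nat.card_prod]
          exact w1.trans (Nat.le_mul_of_pos_left _ Nat.card_pos)
        · rcases Nat.lt_succ_iff_lt_or_eq.1 hpm with h' | rfl
          · have := fin_base U s3
            exact w2 p hp h' S _ s1 s2 (wr_mono U (pg_comm hp s1 s2) (MonoidHom.snd C W)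
              Prod.snd_surjective s3)
          · exact h S _ s1 s2 s3
      · refine ⟨W, _, hW, w1, fun p hp hpm => w2 p hp ?_⟩
        rcases Nat.lt_succ_iff_lt_or_eq.1 hpm with h' | rfl
        · exact h'
        · exact (hm hp).elim
  obtain ⟨C, _, c1, c2, c3⟩ := key (n + 1)
  refine ⟨C, _, c1, fun Y _ π hπ _ S _ hs h => ?_⟩
  have := fin_base U h
  have hY : 0 < Nat.card Y := Nat.card_pos
  by_cases hc : ∀ a b : S, a * b = b * a
  · obtain ⟨a1, a2⟩ := simple_comm hs hc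
    refine c3 _ a1 (Nat.lt_succ_of_le (Nat.le_of_dvd b1 ((b2 _ h).2 _ a1 ?_))) S _ hs a2
      (wr_mono U hc π hπ h)
    rw [RegularWreathProduct.card]
    exact Dvd.dvd.mul_right (dvd_pow_self _ hY.ne') _
  · refine (b3 _ (JP_wr hs hc) ?_ _ h).2 (MonoidHom.id _) surjective_id
    rw [RegularWreathProduct.card]
    have h3 : Nat.card C ≤ Nat.card Y := Nat.card_le_card_of_surjective π hπ
    have h4 : 1 < Nat.card S ^ Nat.card Y := Nat.one_lt_pow hY.ne' Finite.one_lt_card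
    nlinarith

def QC (q : ℕ) (T : Type) [Group T] : Prop :=
  ∀ (a b : T) (i j : ℕ), a ^ q ^ i = 1 → b ^ q ^ j = 1 → ∃ k, (a * b) ^ q ^ k = 1

lemma base_elt {T C : Type} [Group T] [Group C] (w : Wr T C) (h : w.right = 1) (n : ℕ)
    (h2 : w ^ n = 1) : w.left 1 ^ n = 1 := by
  have := (base_pow w h n).1
  rw [h2] at this
  exact (congrFun this 1).symm

lemma s1 (A U : NF) (hb : Bd (A * U)) {C0 : Type} [Group C0] (h0 : Gen U C0) {q : ℕ} (hq : q.Prime)
    {C : Type} [Group C] (hC : U.mem C) (x : C) (x1 : x ≠ 1) (x2 : x ^ q = 1) {T : Type} [Group T]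
    (hT : A.mem T) : QC q T := by
  obtain ⟨c, hc⟩ := hb.h3
  have hY : Gen U ((Fin c → C) × C0) := h0.up (MonoidHom.snd _ _) Prod.snd_surjective
    (mem_prod U (mem_pi U hC _) h0.1)
  obtain ⟨P, p1, p2, p3⟩ := (hc _ (w1 A U hT hY.1 fun S _ _ a _ => hY.self S a)).2 q hq
  have key : ∀ (t : T) (k : ℕ), t ^ q ^ k = 1 → ∃ b ∈ P, b.right = 1 ∧ b.left 1 = t := by
    intro t k ht
    let Q : Subgroup (Wr T ((Fin c → C) × C0)) :=
      { carrier := {w | (∀ y, w.left y ∈ Subgroup.zpowers t) ∧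
          (∀ i, w.right.1 i ∈ Subgroup.zpowers x) ∧ w.right.2 = 1}
        one_mem' := ⟨fun _ => Subgroup.one_mem _, fun _ => Subgroup.one_mem _, rfl⟩
        mul_mem' := fun {a b} ha hb => ⟨fun y => Subgroup.mul_mem _ (ha.1 _) (hb.1 _),
          fun i => Subgroup.mul_mem _ (ha.2.1 i) (hb.2.1 i), by simp [ha.2.2, hb.2.2]⟩
        inv_mem' := fun {a} ha => ⟨fun y => Subgroup.inv_mem _ (ha.1 _),
          fun i => Subgroup.inv_mem _ (ha.2.1 i), by simp [ha.2.2]⟩ }
    have zp : ∀ {G : Type} [Group G] (g y : G) (n : ℕ), g ^ n = 1 → y ∈ Subgroup.zpowers g →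
        y ^ n = 1 := by
      rintro G _ g _ n hg ⟨j, rfl⟩
      show (g ^ j) ^ n = 1
      rw [← zpow_natCast, ← zpow_mul, mul_comm, zpow_mul, zpow_natCast, hg, one_zpow]
    have hQ : IsPGroup q Q := by
      rintro ⟨w, hw⟩
      have a1 : (w ^ q).right = 1 := by
        rw [show (w ^ q).right = w.right ^ q from map_pow RegularWreathProduct.rightHom w q]
        ext i
        · exact zp x _ q x2 (hw.2.1 i)
        · simp [hw.2.2]
      refine ⟨1 + k, Subtype.ext ?_⟩
      show w ^ q ^ (1 + k) = 1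
      rw [pow_add, pow_one, pow_mul]
      obtain ⟨b1, b2⟩ := base_pow _ a1 (q ^ k)
      ext1
      · rw [b1]
        funext y
        exact zp t _ _ ht ((Q.pow_mem hw q).1 y)
      · exact b2
    have ind : ∀ i ≤ c, ∃ b ∈ Q.lowerCentralSeries i, b.right = 1 ∧ b.left 1 = t ∧
        ∀ y (j : Fin c), i ≤ j.val → y.1 j ≠ 1 → b.left y = 1 := by
      intro i
      induction i with
      | zero =>
        intro _
        refine ⟨sg 1 t, ⟨fun y => ?_, fun _ => Subgroup.one_mem _, rfl⟩, rfl, sg_self _ _,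
          fun y j _ hy => sg_ne _ _ _ fun h => hy (by rw [h]; rfl)⟩
        by_cases hy : y = 1
        · rw [hy, sg_self]; exact Subgroup.mem_zpowers t
        · rw [sg_ne _ _ _ hy]; exact Subgroup.one_mem _
      | succ i ih =>
        intro hi
        obtain ⟨b, b1, b2, b3, b4⟩ := ih (by omega)
        let ξ : (Fin c → C) × C0 := (fun j => if j.val = i then x else 1, 1)
        let s : Wr T ((Fin c → C) × C0) := ⟨1, ξ⟩
        have hs : s ∈ Q := ⟨fun _ => Subgroup.one_mem _, fun j => by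
          show (if j.val = i then x else 1) ∈ _
          split_ifs
          · exact Subgroup.mem_zpowers x
          · exact Subgroup.one_mem _, rfl⟩
        refine ⟨b * s * b⁻¹ * s⁻¹, Subgroup.commutator_mem_commutator b1 hs, cb_right _ _ b2, ?_,
          fun y j hj hy => ?_⟩
        · rw [cb_left _ _ b2, b3, b4 (s.right⁻¹ * 1) ⟨i, by omega⟩ le_rfl (by simp [s, ξ, x1])]
          simp
        · have : j.val ≠ i := by omega
          rw [cb_left _ _ b2, b4 y j (by omega) hy,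
            b4 (s.right⁻¹ * y) j (by omega) (by simpa [s, ξ, this] using hy)]
          simp
    obtain ⟨b, b1, b2, b3, -⟩ := ind c le_rfl
    exact ⟨b, p3 Q hQ b1, b2, b3⟩
  intro a b i j ha hb
  obtain ⟨u, u1, u2, rfl⟩ := key a i ha
  obtain ⟨v, v1, v2, rfl⟩ := key b j hb
  obtain ⟨k, hk⟩ := p2 ⟨u * v, P.mul_mem u1 v1⟩
  have := base_elt (u * v) (by simp [u2, v2]) _ (congrArg Subtype.val hk)
  exact ⟨k, by simpa [u2] using this⟩

end Pool.Agent.H.MP_456268_al
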