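import Pool.Agent.H.MP_456268_al.B

set_option autoImplicit false

namespace Pool.Agent.H.MP_456268_al

open Function Pointwise Pool.Agent.H.MP_4f47f1_al Pool.Agent.H.MP_44c8f1_al
  Pool.Agent.H.MP_58728c_al

lemma res_over (V : NF) (T : Type) {Y : Type} [Group T] [Group Y] [Finite T] [Finite Y] (l : Y)
    (h : l ∈ res V.mem Y) : ∃ r ∈ res V.mem (Wr T Y), r.right = l := by
  rw [← res_map V _ (right_surj T Y)] at h
  exact h

lemma res_right_mem (V : NF) {T Y : Type} [Group T] [Group Y] [Finite T] [Finite Y] (r : Wr T Y)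
    (h : r ∈ res V.mem (Wr T Y)) : r.right ∈ res V.mem Y := by
  rw [← res_map V _ (right_surj T Y)]
  exact ⟨r, h, rfl⟩

lemma theta_mem {A B U V : NF} (h : A * U = B * V) {T Y : Type} [Group T] [Group Y] (hT : A.mem T)
    (hY : Gen U Y) : B.mem (res V.mem (Wr T Y)) := by
  have := w1 A U hT hY.1 fun S _ _ a _ => hY.self S a
  rw [h] at this
  exact this.2

lemma exists_gen_not {U V : NF} {C0 : Type} [Group C0] (h0 : Gen U C0) (h : ¬ Le U V) :
    ∃ (Y : Type) (_ : Group Y), Gen U Y ∧ ¬ V.mem Y := by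
  obtain ⟨Y, _, h1, h2⟩ : ∃ (Y : Type) (_ : Group Y), U.mem Y ∧ ¬ V.mem Y := by
    by_contra hc
    push Not at hc
    exact h fun G _ hG => hc G _ hG
  exact ⟨Y × C0, _, h0.up (MonoidHom.snd _ _) Prod.snd_surjective (mem_prod U h1 h0.1),
    fun hV => h2 (V.ok.2.1 _ _ (MonoidHom.fst _ _) Prod.fst_surjective hV)⟩

lemma exists_ord {Y : Type} [Group Y] [Finite Y] (L : Subgroup Y) (h : L ≠ ⊥) :
    ∃ q, q.Prime ∧ ∃ l ∈ L, orderOf l = q := by
  have h1 := (Subgroup.one_lt_card_iff_ne_bot L).2 h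
  obtain ⟨q, hq, hd⟩ := Nat.exists_prime_and_dvd h1.ne'
  have := Fact.mk hq
  obtain ⟨x, hx⟩ := exists_prime_orderOf_dvd_card' (G := L) q hd
  exact ⟨q, hq, x, x.2, by rw [← hx]; exact Subgroup.orderOf_coe x⟩

lemma qc_down {Z Y : Type} [Group Z] [Group Y] [Finite Z] [Finite Y] (R : Subgroup (Wr Z Y))
    [R.Normal] (r : Wr Z Y) (hr : r ∈ R) (h : r.right ≠ 1) {q : ℕ} (hq : q.Prime) (hQ : QC q R) :
    QC q Z := by
  let R' : Subgroup (Wr Z Y) := R ⊓ (RegularWreathProduct.rightHom).ker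
  have hR : ∀ x ∈ R', x.right = 1 := fun x hx => hx.2
  have hs : Surjective (ev R' hR 1) := fun t => by
    obtain ⟨c, c1, c2, c3, -⟩ := normal_proj R r hr h t
    exact ⟨⟨c, c1, c2⟩, c3⟩
  intro a b i j ha hb
  obtain ⟨x, i', rfl, hx⟩ := lift_pelt _ hs q hq a i ha
  obtain ⟨y, j', rfl, hy⟩ := lift_pelt _ hs q hq b j hb
  have hx' : x.1 ^ q ^ i' = 1 := congrArg Subtype.val hx
  have hy' : y.1 ^ q ^ j' = 1 := congrArg Subtype.val hy
  obtain ⟨k, hk⟩ := hQ ⟨x.1, x.2.1⟩ ⟨y.1, y.2.1⟩ i' j' (Subtype.ext hx') (Subtype.ext hy')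
  have hk' : (x.1 * y.1) ^ q ^ k = 1 := congrArg Subtype.val hk
  refine ⟨k, ?_⟩
  rw [← map_mul, ← map_pow]
  have : (x * y) ^ q ^ k = 1 := Subtype.ext hk'
  rw [this, map_one]

lemma qc_pg (V : NF) {Z Y : Type} [Group Z] [Group Y] [Finite Z] [Finite Y] {q : ℕ} (hq : q.Prime)
    (l : Y) (hl : l ∈ res V.mem Y) (ho : orderOf l = q) (hQ : QC q (res V.mem (Wr Z Y))) :
    IsPGroup q Z := by
  obtain ⟨r, k, hr, hk⟩ := lift_pelt _ (resHom_surj V _ (right_surj Z Y)) q hq ⟨l, hl⟩ 1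
    (Subtype.ext (by rw [pow_one, ← ho]; exact pow_orderOf_eq_one l))
  have hr' : r.1.right = l := congrArg Subtype.val hr
  have hl1 : l ≠ 1 := by
    rintro rfl
    rw [orderOf_one] at ho
    exact hq.one_lt.ne ho
  intro t
  have hk' : r.1 ^ q ^ k = 1 := congrArg Subtype.val hk
  obtain ⟨m, hm⟩ := hQ ⟨_, (res_normal _ _).conj_mem _ r.2 (sg 1 t)⟩ r⁻¹ k k
    (Subtype.ext (by
      show (sg 1 t * r.1 * (sg 1 t)⁻¹) ^ q ^ k = 1
      rw [conj_pow, hk']; simp)) (by rw [inv_pow, hk, inv_one])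
  have := base_elt (sg 1 t * r.1 * (sg 1 t)⁻¹ * r.1⁻¹) (cb_right _ _ rfl) _
    (congrArg Subtype.val hm)
  rw [cb_left _ _ rfl, sg_self, sg_ne _ _ _ (by simpa [hr'] using hl1)] at this
  exact ⟨m, by simpa using this⟩

def bs (T C : Type) [Group T] [Group C] : (C → T) →* Wr T C :=
  MonoidHom.mk' (fun f => ⟨f, 1⟩) (fun a b => by ext <;> simp)

lemma conj_sg {T C : Type} [Group T] [Group C] (j : Wr T C) (q : C) (t : T) :
    j * sg q t * j⁻¹ = sg (j.right * q) (j.left (j.right * q) * t * (j.left (j.right * q))⁻¹) := by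
  ext y
  · by_cases hy : y = j.right * q
    · subst hy
      rw [sg_self]
      simp [sg_right, sg_self]
    · rw [sg_ne _ _ _ hy]
      have : j.right⁻¹ * y ≠ q := fun h => hy (by rw [← h]; simp)
      simp [sg_right, sg_ne _ _ _ this]
  · simp [sg_right]

lemma base_mem {T C : Type} [Group T] [Group C] [Finite C] (J : Subgroup (Wr T C))
    (h : ∀ q t, sg q t ∈ J) (w : Wr T C) (hw : w.right = 1) : w ∈ J := by
  classical
  have : w.left ∈ J.comap (bs T C) := Subgroup.pi_mem_of_mulSingle_mem _ fun q => by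
    have := h q (w.left q)
    show bs T C _ ∈ J
    convert this
    simp only [sg, bs, MonoidHom.mk'_apply]
  have e : w = bs T C w.left := by ext <;> simp [bs, hw]
  rw [e]; exact this

lemma full {T C : Type} [Group T] [Group C] [Finite C] (J : Subgroup (Wr T C)) [hJ : J.Normal]
    (h1 : ∀ c, ∃ j ∈ J, j.right = c) (h2 : ∀ t, sg 1 t ∈ J) : J = ⊤ := by
  have h3 : ∀ q t, sg q t ∈ J := fun q t => by
    have := hJ.conj_mem _ (h2 t) (RegularWreathProduct.inl q)
    rw [conj_sg] at this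
    simpa using this
  rw [eq_top_iff]
  intro w _
  obtain ⟨j, j1, j2⟩ := h1 w.right
  have := J.mul_mem (base_mem J h3 (w * j⁻¹) (by simp [j2])) j1
  simpa using this

def rho (T : Type) {Y : Type} [Group T] [Group Y] (Λ : Subgroup Y) :
    (Λ.comap (RegularWreathProduct.rightHom : Wr T Y →* Y)) →* Wr T Λ :=
  MonoidHom.mk' (fun w => ⟨fun x => w.1.left x, ⟨w.1.right, w.2⟩⟩) (fun a b => by ext <;> simp)

lemma rho_surj (T : Type) {Y : Type} [Group T] [Group Y] (Λ : Subgroup Y) : Surjective (rho T Λ) := by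
  classical
  rintro ⟨l, r⟩
  exact ⟨⟨⟨fun y => if h : y ∈ Λ then l ⟨y, h⟩ else 1, r⟩, r.2⟩, by ext <;> simp [rho]⟩

def JJ {T Y : Type} [Group T] [Group Y] (R : Subgroup (Wr T Y)) (Λ : Subgroup Y) :
    Subgroup (Wr T Λ) := (R.subgroupOf (Λ.comap RegularWreathProduct.rightHom)).map (rho T Λ)

instance {T Y : Type} [Group T] [Group Y] (R : Subgroup (Wr T Y)) [R.Normal] (Λ : Subgroup Y) :
    (JJ R Λ).Normal := Subgroup.Normal.map inferInstance _ (rho_surj T Λ)

lemma JJ_mem {p : ℕ} (hp : p.Prime) (B : NF) (hB : Le B (Np p)) {T Y : Type} [Group T] [Group Y]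
    (R : Subgroup (Wr T Y)) (Λ : Subgroup Y) (h : B.mem R) : B.mem (JJ R Λ) := by
  have h1 : B.mem (R.subgroupOf (Λ.comap RegularWreathProduct.rightHom)) :=
    hered_p hp B hB ((((Λ.comap RegularWreathProduct.rightHom).subtype).comp
      (Subgroup.subtype _)).codRestrict R fun x => x.2) (fun a b hab =>
        have h0 : a.1.1 = b.1.1 := congrArg (fun x : R => x.1) hab
        Subtype.ext (Subtype.ext h0)) h
  exact B.ok.2.1 _ _ _ (MonoidHom.subgroupMap_surjective _ _) h1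

lemma JJ_over (V : NF) (T : Type) {Y : Type} [Group T] [Group Y] [Finite T] [Finite Y]
    (Λ : Subgroup Y) (h : Λ ≤ res V.mem Y) (c : Λ) :
    ∃ j ∈ JJ (res V.mem (Wr T Y)) Λ, j.right = c := by
  obtain ⟨r, r1, r2⟩ := res_over V T c.1 (h c.2)
  exact ⟨_, ⟨⟨r, show r.right ∈ Λ from r2 ▸ c.2⟩, r1, rfl⟩, Subtype.ext r2⟩

lemma case_a (V : NF) (T : Type) {Y : Type} [Group T] [Group Y] [Finite T] [Finite Y]
    (Λ : Subgroup Y) (h : Λ ≤ res V.mem Y) (l : Y) (h1 : l ∈ res V.mem Y) (h2 : l ∉ Λ) :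
    JJ (res V.mem (Wr T Y)) Λ = ⊤ := by
  refine full _ (JJ_over V T Λ h) fun t => ?_
  obtain ⟨r, r1, r2⟩ := res_over V T l h1
  obtain ⟨c, c1, c2, c3, c4⟩ := normal_proj _ r r1 (fun h => h2 (r2 ▸ h ▸ Λ.one_mem)) t
  refine ⟨⟨c, show c.right ∈ Λ from c2 ▸ Λ.one_mem⟩, c1, ?_⟩
  ext x
  · show c.left x = _
    by_cases hx : x = 1
    · rw [hx, sg_self]; exact c3
    · rw [sg_ne _ _ _ hx]
      exact c4 _ (fun h => hx (Subtype.ext h)) (fun h => h2 (r2 ▸ h ▸ x.2))
  · exact c2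

noncomputable def sgH (T C : Type) [Group T] [Group C] : T →* Wr T C :=
  MonoidHom.mk' (fun t => sg 1 t) (fun a b => by
    ext y
    · by_cases hy : y = 1
      · simp [hy, sg_self, sg_right]
      · simp [sg_ne _ _ _ hy, sg_right]
    · simp [sg_right])

lemma sg_comm {T C : Type} [Group T] [Group C] (q : C) (hq : q ≠ 1) (a b : T) :
    sg 1 a * sg q b = sg q b * sg 1 a := by
  ext y
  · by_cases hy : y = 1
    · subst hy; simp [sg_right, sg_ne q b 1 hq.symm]
    · simp [sg_right, sg_ne _ _ _ hy]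
  · simp [sg_right]

lemma wmap_sg {T U C : Type} [Group T] [Group U] [Group C] (f : T →* U) (t : T) :
    wmap C f (sg 1 t) = sg 1 (f t) := by
  ext y
  · by_cases hy : y = 1
    · simp [wmap, hy, sg_self]
    · simp [wmap, sg_ne _ _ _ hy]
  · rfl

lemma case_b (V : NF) {p : ℕ} (hp : p.Prime) (T : Type) {Y : Type} [Group T] [Group Y] [Finite T]
    [Finite Y] (hT : IsPGroup p (T × T)) (hc : Nat.card (res V.mem Y) = p)
    (hg : ∀ (S : Type) [Group S], IsSimpleGroup S → IsPGroup p S →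
      ¬ V.mem (Wr S (Y ⧸ res V.mem Y))) :
    ∃ f : T × T →* T, Surjective f ∧
      (JJ (res V.mem (Wr (T × T) Y)) (res V.mem Y)).map (wmap _ f) = ⊤ := by
  classical
  have := Fact.mk hp
  set Λ := res V.mem Y with hΛ
  set J := JJ (res V.mem (Wr (T × T) Y)) Λ with hJ
  have ov := JJ_over V (T × T) Λ le_rfl
  let κ := QuotientGroup.mk' J
  have κ1 : ∀ j ∈ J, κ j = 1 := fun j hj => (QuotientGroup.eq_one_iff j).2 hj
  let τ : T × T →* _ := κ.comp (sgH _ Λ)
  have s1 : ∀ q : Λ, ∃ u : T × T, ∀ t, κ (sg q t) = τ (u * t * u⁻¹) := by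
    intro q
    obtain ⟨j, j1, j2⟩ := ov q⁻¹
    refine ⟨j.left 1, fun t => ?_⟩
    have := congrArg κ (conj_sg j q t)
    rw [map_mul, map_mul, map_inv, κ1 j j1, j2, inv_mul_cancel, one_mul, inv_one, mul_one] at this
    exact this
  have : Nontrivial Λ := Finite.one_lt_card_iff_nontrivial.1 (hc ▸ hp.one_lt)
  have s2 : ∀ a b, τ a * τ b = τ b * τ a := by
    intro a b
    obtain ⟨q, hq⟩ := exists_ne (1 : Λ)
    obtain ⟨u, hu⟩ := s1 q
    have := hu (u⁻¹ * b * u)
    rw [show u * (u⁻¹ * b * u) * u⁻¹ = b by group] at this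
    rw [← this]
    show κ (sg 1 a) * _ = _ * κ (sg 1 a)
    rw [← map_mul, ← map_mul, sg_comm q hq]
  have s3 : ∀ q t, κ (sg q t) = τ t := by
    intro q t
    obtain ⟨u, hu⟩ := s1 q
    rw [hu, map_mul, map_mul, s2 u t, map_inv]; simp
  have s4 : Surjective τ := by
    intro a
    obtain ⟨w, rfl⟩ := QuotientGroup.mk'_surjective J a
    obtain ⟨j, j1, j2⟩ := ov w.right
    have := base_mem (τ.range.comap κ) (fun q t => ⟨t, (s3 q t).symm⟩) (w * j⁻¹) (by simp [j2])
    rw [Subgroup.mem_comap, map_mul, map_inv, κ1 j j1, inv_one, mul_one] at this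
    exact this
  let _ : CommGroup (Wr (T × T) Λ ⧸ J) := { (inferInstance : Group (Wr (T × T) Λ ⧸ J)) with
    mul_comm := fun a b => by
      obtain ⟨a, rfl⟩ := s4 a
      obtain ⟨b, rfl⟩ := s4 b
      exact s2 a b }
  let π := QuotientGroup.mk' Λ
  have hν := nu_surj τ π s4 (QuotientGroup.mk'_surjective Λ)
  have hev := wr_surj V (Wr (T × T) Λ ⧸ J) (res_mem V Y) (fun S _ f a b =>
    hg S a ((hT.of_surjective τ s4).of_surjective f b)) 1
  let α : (Y → T × T) →* (Wr (T × T) Λ ⧸ J) := κ.comp ((rho _ Λ).comp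
    ((bs _ Y).codRestrict _ fun _ => Λ.one_mem))
  let β : (Y → T × T) →* (Wr (T × T) Λ ⧸ J) := MonoidHom.mk'
    (fun f => (nu τ π (bs _ Y f)).left 1) (fun a b => by
      rw [map_mul, map_mul]
      simp [nu, bs])
  have hαβ : α = β := by
    refine MonoidHom.ext fun f => Subgroup.pi_mem_of_mulSingle_mem (H := α.eqLocus β) f fun y => ?_
    generalize f y = t
    show α (Pi.mulSingle y t) = β (Pi.mulSingle y t)
    by_cases hy : y ∈ Λ
    · have e1 : α (Pi.mulSingle y t) = κ (sg ⟨y, hy⟩ t) := by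
        show κ _ = κ _
        congr 1
        ext1
        · funext x
          by_cases hx : x = ⟨y, hy⟩
          · subst hx; rw [sg_self]; simp [rho, bs]
          · rw [sg_ne _ _ _ hx]
            have : (x : Y) ≠ y := fun h => hx (Subtype.ext h)
            simp [rho, bs, this]
        · rfl
      rw [e1, s3]
      simp only [β, nu, bs, MonoidHom.mk'_apply]
      rw [Finset.prod_eq_single y]
      · rw [if_pos (show π y = 1 from (QuotientGroup.eq_one_iff y).2 hy)]; simp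
      · intro z _ hz
        simp [hz]
      · simp
    · have e1 : α (Pi.mulSingle y t) = κ 1 := by
        show κ _ = κ _
        congr 1
        ext1
        · funext x
          have : (x : Y) ≠ y := fun h => hy (h ▸ x.2)
          simp [rho, bs, this]
        · rfl
      rw [e1, map_one]
      simp only [β, nu, bs, MonoidHom.mk'_apply]
      symm
      refine Finset.prod_eq_one fun z _ => ?_
      split_ifs with h
      · have : z ≠ y := fun h' => hy (h' ▸ (QuotientGroup.eq_one_iff z).1 h)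
        simp [this]
      · rfl
  have s5 : Surjective (κ.comp RegularWreathProduct.inl) := by
    intro a
    obtain ⟨⟨x, hx⟩, hx'⟩ := hev a⁻¹
    rw [← res_map V _ hν] at hx
    obtain ⟨r, r1, rfl⟩ := hx
    have r2 : r.right ∈ Λ := res_right_mem V r r1
    have e1 : β r.left = a⁻¹ := hx'
    have e2 : κ (rho _ Λ ⟨r, r2⟩) = 1 := κ1 _ ⟨⟨r, r2⟩, r1, rfl⟩
    have e3 : κ (rho _ Λ ⟨r, r2⟩) = α r.left * κ (RegularWreathProduct.inl ⟨r.right, r2⟩) := by
      show _ = κ _ * _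
      rw [← map_mul]
      congr 1
      ext <;> simp [rho, bs]
    rw [e2, hαβ, e1] at e3
    exact ⟨⟨r.right, r2⟩, (inv_mul_eq_one.1 e3.symm).symm⟩
  have fin : ∀ f : T × T →* T, Surjective f → (∀ t, ∃ u, f u = t ∧ τ u = 1) →
      J.map (wmap _ f) = ⊤ := by
    intro f hf h
    have := Subgroup.Normal.map (inferInstance : J.Normal) _ (wmap_surj Λ f hf)
    refine full _ (fun c => ?_) fun t => ?_
    · obtain ⟨j, j1, j2⟩ := ov c
      exact ⟨_, ⟨j, j1, rfl⟩, j2⟩
    · obtain ⟨u, rfl, hu⟩ := h t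
      exact ⟨sg 1 u, (QuotientGroup.eq_one_iff _).1 hu, wmap_sg f u⟩
  have : Fact (Nat.card Λ).Prime := ⟨hc ▸ hp⟩
  rcases ((τ.comp (MonoidHom.inr T T)).range.comap
    (κ.comp RegularWreathProduct.inl)).eq_bot_or_eq_top_of_prime_card with h | h
  · refine ⟨MonoidHom.snd _ _, Prod.snd_surjective, fin _ Prod.snd_surjective fun t =>
      ⟨(1, t), rfl, ?_⟩⟩
    obtain ⟨c, hc'⟩ := s5 (τ (1, t))
    have : c ∈ (τ.comp (MonoidHom.inr T T)).range.comap (κ.comp RegularWreathProduct.inl) :=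
      ⟨t, hc'.symm⟩
    rw [h, Subgroup.mem_bot] at this
    rw [← hc', this, map_one]
  · refine ⟨MonoidHom.fst _ _, Prod.fst_surjective, fin _ Prod.fst_surjective fun t => ?_⟩
    obtain ⟨c, hc'⟩ := s5 (τ (t, 1))
    obtain ⟨s, hs⟩ : c ∈ (τ.comp (MonoidHom.inr T T)).range.comap
      (κ.comp RegularWreathProduct.inl) := h ▸ Subgroup.mem_top c
    refine ⟨(t, s⁻¹), rfl, ?_⟩
    have e : ((t, s⁻¹) : T × T) = (t, 1) * (1, s)⁻¹ := by simp
    have hs' : τ (1, s) = τ (t, 1) := hs.trans hc'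
    rw [e, map_mul, map_inv, hs', mul_inv_cancel]

end Pool.Agent.H.MP_456268_al
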