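import Pool.Agent.H.MP_456268_al.C

set_option autoImplicit false

namespace Pool.Agent.H.MP_456268_al

open Function Pointwise Pool.Agent.H.MP_4f47f1_al Pool.Agent.H.MP_44c8f1_al
  Pool.Agent.H.MP_58728c_al

lemma wr_congr (B : NF) {p : ℕ} (hp : p.Prime) {T C D : Type} [Group T] [Group C] [Group D]
    (h1 : Nat.card C = p) (h2 : Nat.card D = p) (h : B.mem (Wr T C)) : B.mem (Wr T D) := by
  have := Fact.mk hp
  exact B.ok.iso (RegularWreathProduct.congr (MulEquiv.refl T) (mulEquivOfPrimeCardEq h1 h2)) h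

lemma wc {p : ℕ} (hp : p.Prime) {A B U V : NF} (h : A * U = B * V) {C0 : Type} [Group C0]
    (h0 : Gen U C0) (hUV : ¬ Le U V) (hA : Le A (Np p)) (hB : Le B (Np p)) {T : Type} [Group T]
    (hT : A.mem T) : B.mem (Wr T (Zc p)) := by
  have := Fact.mk hp
  have := A.ok.1 T hT
  have hZ : Nat.card (Zc p) = p := by simp
  have hL : ∀ (Y : Type) [Group Y], Gen U Y → ¬ V.mem Y → ∃ l ∈ res V.mem Y, orderOf l = p := by
    intro Y _ hY hV
    have := U.ok.1 Y hY.1
    obtain ⟨q, hq, l, l1, l2⟩ := exists_ord _ (fun h0 => hV (mem_of_res_bot V h0))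
    have := Fact.mk hq
    obtain ⟨k, hk⟩ := ((hB _ (theta_mem h hT hY)).2.of_surjective _
      (resHom_surj V _ (right_surj T Y))) ⟨l, l1⟩
    have h1 : q ∣ p ^ k := by
      rw [← l2]; exact orderOf_dvd_of_pow_eq_one (congrArg Subtype.val hk)
    exact ⟨l, l1, by rw [l2]; exact (Nat.prime_dvd_prime_iff_eq hq hp).1 (hq.dvd_of_dvd_pow h1)⟩
  by_cases ha : ∃ (Y : Type) (_ : Group Y), Gen U Y ∧ ∃ l ∈ res V.mem Y, orderOf l = p ∧
      ¬ res V.mem Y ≤ Subgroup.zpowers l
  · obtain ⟨Y, _, hY, l, l1, l2, l3⟩ := ha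
    have := U.ok.1 Y hY.1
    obtain ⟨m, m1, m2⟩ := SetLike.not_le_iff_exists.1 l3
    have h1 := JJ_mem hp B hB _ (Subgroup.zpowers l) (theta_mem h hT hY)
    rw [case_a V T _ (Subgroup.zpowers_le.2 l1) m m1 m2] at h1
    exact wr_congr B hp (by rw [Nat.card_zpowers, l2]) hZ (B.ok.iso Subgroup.topEquiv h1)
  have hb : ∀ (Y : Type) [Group Y], Gen U Y → ¬ V.mem Y → Nat.card (res V.mem Y) = p := by
    intro Y _ hY hV
    obtain ⟨l, l1, l2⟩ := hL Y hY hV
    have : res V.mem Y = Subgroup.zpowers l := by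
      refine le_antisymm ?_ (Subgroup.zpowers_le.2 l1)
      by_contra hc
      exact ha ⟨Y, _, hY, l, l1, l2, hc⟩
    rw [this, Nat.card_zpowers, l2]
  obtain ⟨Y0, _, y1, y2⟩ := exists_gen_not h0 hUV
  have := U.ok.1 Y0 y1.1
  obtain ⟨C1, _, c1, c2, c3⟩ : ∃ (C : Type) (_ : Group C), U.mem C ∧ V.mem C ∧
      ¬ V.mem (Wr (Zc p) C) := by
    refine ⟨_, _, U.ok.2.1 _ _ _ (QuotientGroup.mk'_surjective (res V.mem Y0)) y1.1, res_mem V Y0,
      fun hc => y2 ?_⟩
    have hk : Nat.card (QuotientGroup.mk' (res V.mem Y0)).ker = p := by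
      rw [QuotientGroup.ker_mk', hb Y0 y1 y2]
    refine kk V _ (QuotientGroup.mk'_surjective (res V.mem Y0)) ?_
      (V.ok.iso (RegularWreathProduct.congr (mulEquivOfPrimeCardEq hZ hk) (MulEquiv.refl _)) hc)
    have := isCyclic_of_prime_card hk
    exact fun a b => IsCyclic.commGroup.mul_comm a b
  have g1 : Gen U (Y0 × C1) := y1.up (MonoidHom.fst _ _) Prod.fst_surjective (mem_prod U y1.1 c1)
  have g2 : ¬ V.mem (Y0 × C1) := fun hV =>
    y2 (V.ok.2.1 _ _ (MonoidHom.fst _ _) Prod.fst_surjective hV)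
  have := U.ok.1 _ g1.1
  have hTT := mem_prod A hT hT
  obtain ⟨f, f1, f2⟩ := case_b V hp T (hA _ hTT).2 (hb _ g1 g2) (fun S _ s1 s2 s3 => c3 (by
    have := fin_base V s3
    exact V.ok.iso (RegularWreathProduct.congr (mulEquivOfPrimeCardEq (simple_card hp s1 s2) hZ)
      (MulEquiv.refl _)) (wr_mono V (pg_comm hp s1 s2) _ (lift_surj _ _
        (res_le V (MonoidHom.snd Y0 C1) Prod.snd_surjective c2) Prod.snd_surjective) s3)))
  have h1 := B.ok.2.1 _ _ _ (MonoidHom.subgroupMap_surjective (wmap _ f) _)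
    (JJ_mem hp B hB _ (res V.mem (Y0 × C1)) (theta_mem h hTT g1))
  rw [f2] at h1
  exact wr_congr B hp (hb _ g1 g2) hZ (B.ok.iso Subgroup.topEquiv h1)

lemma kk_embed {X C : Type} [Group X] [Group C] (π : X →* C) (hπ : Surjective π) :
    ∃ φ : X →* Wr π.ker C, Injective φ := by
  choose σ hσ using hπ
  refine ⟨MonoidHom.mk' (fun x => ⟨fun q =>
    ⟨(σ q)⁻¹ * x * σ ((π x)⁻¹ * q), by simp [MonoidHom.mem_ker, hσ]⟩, π x⟩) (fun a b => by
      ext q
      · simp [mul_assoc]
      · simp), ?_⟩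
  rw [← MonoidHom.ker_eq_bot_iff, eq_bot_iff]
  intro x hx
  have h1 : π x = 1 := congrArg RegularWreathProduct.right hx
  have h2 : (σ 1)⁻¹ * x * σ ((π x)⁻¹ * 1) = 1 :=
    congrArg Subtype.val (congrFun (congrArg RegularWreathProduct.left hx) 1)
  rw [h1, inv_one, one_mul] at h2
  show x = 1
  calc x = σ 1 * ((σ 1)⁻¹ * x * σ 1) * (σ 1)⁻¹ := by group
    _ = 1 := by rw [h2]; simp

lemma all_p {p : ℕ} (hp : p.Prime) (A : NF) (hA : Le A (Np p))
    (h : ∀ (T : Type) [Group T], A.mem T → A.mem (Wr T (Zc p))) : Le (Np p) A := by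
  have := Fact.mk hp
  have key : ∀ n : ℕ, ∀ (X : Type) [Group X], Nat.card X = n → (Np p).mem X → A.mem X := by
    intro n
    induction n using Nat.strong_induction_on with
    | _ n ih =>
      intro X _ hn hX
      have := hX.1
      rcases subsingleton_or_nontrivial X with _ | _
      · exact A.triv X
      obtain ⟨S, _, f, a, b, -⟩ := simple_quot (⊥ : Subgroup X) bot_ne_top
      have := Finite.of_surjective f b
      have hS := simple_card hp a (hX.2.of_surjective f b)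
      have h2 := Subgroup.card_eq_card_quotient_mul_card_subgroup f.ker
      rw [Nat.card_congr (QuotientGroup.quotientKerEquivOfSurjective f b).toEquiv, hS] at h2
      have h3 : 0 < Nat.card f.ker := Nat.card_pos
      have h4 := ih (Nat.card f.ker) (by have := hp.two_le; nlinarith) f.ker rfl
        ⟨inferInstance, hX.2.to_subgroup _⟩
      obtain ⟨φ, hφ⟩ := kk_embed f b
      exact hered_p hp A hA φ hφ (wr_congr A hp (by simp) hS (h _ h4))
  exact fun X _ hX => key _ X rfl hX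

def Ind (A : NF) : Prop := A ≠ 1 ∧ ∀ X Y : NF, A = X * Y → X = 1 ∨ Y = 1

lemma Np_ne {p : ℕ} (hp : p.Prime) : Np p ≠ 1 := by
  intro h
  have h1 := Zc_pg p 1 hp
  rw [h] at h1
  have : Subsingleton (Zc (p ^ 1)) := h1
  have h2 := Nat.card_of_subsingleton (1 : Zc (p ^ 1))
  have h3 : Nat.card (Zc (p ^ 1)) = p := by
    rw [Nat.card_congr (Multiplicative.toAdd (α := ZMod (p ^ 1))), Nat.card_zmod, pow_one]
  exact hp.one_lt.ne' (h3.symm.trans h2)

lemma Le.anti {A B : NF} (h1 : Le A B) (h2 : Le B A) : A = B := NF.eq_of fun G _ => ⟨h1 G, h2 G⟩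

lemma not_abs {p : ℕ} (hp : p.Prime) {A : NF} (hA : Ind A) : ¬ Le (Np p * A) A := fun h =>
  (hA.2 _ _ (Le.anti (le_mul _ _) h)).elim (Np_ne hp) hA.1

lemma not_closed {p : ℕ} (hp : p.Prime) {A : NF} (hI : Ind A) (hA : Le A (Np p))
    (h : ∀ (T : Type) [Group T], A.mem T → A.mem (Wr T (Zc p))) : False :=
  not_abs hp hI fun G _ hG => all_p hp A hA h G (mul_le_Np (fun _ _ h => h) hA G hG)

lemma rc {A B U : NF} {C0 : Type} [Group C0] (h0 : Gen U C0) (h : Le (A * U) (B * U)) : Le A B :=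
  fun T _ hT =>
    have := A.ok.1 T hT
    w2 B U (h _ (w1 A U hT h0.1 fun S _ _ a _ => h0.self S a)) h0.1 fun S _ _ a _ => h0.self S a

lemma alpha {A B U V : NF} (h : A * U = B * V) (hle : Le V U) {C0 : Type} [Group C0]
    (h0 : Gen V C0) : B = A * KC U C0 (hle _ h0.1) := by
  set W := KC U C0 (hle _ h0.1) with hW
  have hC := hle _ h0.1
  have := U.ok.1 _ hC
  have key : ∀ (X : Type) [Group X] [Finite X], A.mem (res U.mem (Wr X C0)) ↔ A.mem (res W.mem X) := by
    intro X _ _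
    obtain ⟨a1, a2⟩ := wr0 _ (res_right U X hC)
    have e : (ev _ (res_right U X hC) 1).range = res W.mem X := by
      apply le_antisymm
      · rintro _ ⟨r, rfl⟩
        have := res_le U _ (wmap_surj C0 _ (QuotientGroup.mk'_surjective (res W.mem X)))
          (res_mem W X).2 r.2
        exact (QuotientGroup.eq_one_iff _).1 (congrFun (congrArg RegularWreathProduct.left this) 1)
      · have := res_le W _ (QuotientGroup.mk'_surjective (ev _ (res_right U X hC) 1).range)
          ⟨inferInstance, mem_of_res_le U _ (wmap_surj C0 _ (QuotientGroup.mk'_surjective _))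
            (fun x hx => by
              rw [MonoidHom.mem_ker]
              ext q
              · have : x.left q ∈ (ev _ (res_right U X hC) 1).range := a2 q ▸ ⟨⟨x, hx⟩, rfl⟩
                exact (QuotientGroup.eq_one_iff _).2 this
              · exact res_right U X hC x hx)⟩
        rwa [QuotientGroup.ker_mk'] at this
    rw [← e]
    refine ⟨fun hA => A.ok.2.1 _ _ _ (MonoidHom.rangeRestrict_surjective _) hA, fun hA => ?_⟩
    refine mem_of_res_bot A (eq_bot_iff.2 fun x hx => ?_)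
    rw [Subgroup.mem_bot]
    ext q
    · rw [← a2 q] at hA
      have := res_le A _ (MonoidHom.rangeRestrict_surjective _) hA hx
      rwa [MonoidHom.ker_rangeRestrict] at this
    · exact res_right U X hC _ x.2
  refine NF.eq_of fun X _ => ⟨fun hX => ?_, fun hX => ?_⟩
  · have := B.ok.1 X hX
    have h1 := w1 B V hX h0.1 fun S _ _ a _ => h0.self S a
    rw [← h] at h1
    exact ⟨this, (key X).1 h1.2⟩
  · have := hX.1
    exact w2 B V (h ▸ ⟨inferInstance, (key X).2 hX.2⟩) h0.1 fun S _ _ a _ => h0.self S a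

lemma pp2 {A U V : NF} (hI : Ind A) (h : A * U = A * V) (hb : Bd (A * U)) {C0 : Type} [Group C0]
    (h0 : Gen U C0) : Le U V := by
  by_contra hUV
  obtain ⟨Y, _, y1, y2⟩ := exists_gen_not h0 hUV
  have := U.ok.1 Y y1.1
  obtain ⟨q, hq, l, l1, l2⟩ := exists_ord _ (fun h0 => y2 (mem_of_res_bot V h0))
  have hl1 : l ≠ 1 := by
    rintro rfl
    rw [orderOf_one] at l2
    exact hq.one_lt.ne l2
  have hA : Le A (Np q) := fun T _ hT =>
    have := A.ok.1 T hT
    ⟨this, qc_pg V hq l l1 l2 (s1 A U hb h0 hq y1.1 l hl1 (l2 ▸ pow_orderOf_eq_one l)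
      (theta_mem h hT y1))⟩
  exact not_closed hq hI hA fun T _ hT => wc hq h h0 hUV hA hA hT

lemma pp1a {A B U V : NF} (h : A * U = B * V) (hb : Bd (A * U)) {C0 C1 : Type} [Group C0] [Group C1]
    (h0 : Gen U C0) (h1 : Gen V C1) (hUV : ¬ Le U V) (hVU : ¬ Le V U) :
    ∃ q, q.Prime ∧ Le A (Np q) ∧ ∃ (R : Type) (_ : Group R), B.mem R ∧ q ∣ Nat.card R := by
  obtain ⟨Y, _, y1, y2⟩ := exists_gen_not h0 hUV
  obtain ⟨Z, _, z1, z2⟩ := exists_gen_not h1 hVU
  have := U.ok.1 Y y1.1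
  have := V.ok.1 Z z1.1
  obtain ⟨q, hq, l, l1, l2⟩ := exists_ord _ (fun h0 => y2 (mem_of_res_bot V h0))
  obtain ⟨⟨m, m1⟩, m2⟩ := Subgroup.ne_bot_iff_exists_ne_one.1 (fun h0 => z2 (mem_of_res_bot U h0))
  have hl1 : l ≠ 1 := by
    rintro rfl
    rw [orderOf_one] at l2
    exact hq.one_lt.ne l2
  refine ⟨q, hq, fun T _ hT => ?_, _, _, theta_mem h A.ne y1, ?_⟩
  · have := A.ok.1 T hT
    have t1 := theta_mem h hT y1
    have t2 := theta_mem h.symm t1 z1
    obtain ⟨r, r1, r2⟩ := res_over U (res V.mem (Wr T Y)) m m1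
    exact ⟨this, qc_pg V hq l l1 l2 (qc_down _ r r1 (fun h0 => m2 (Subtype.ext (r2 ▸ h0))) hq
      (s1 A U hb h0 hq y1.1 l hl1 (l2 ▸ pow_orderOf_eq_one l) t2))⟩
  · refine Dvd.dvd.trans ?_ (Subgroup.card_dvd_of_surjective _ (resHom_surj V _ (right_surj PUnit Y)))
    rw [← l2, ← Subgroup.orderOf_mk l l1]
    exact orderOf_dvd_natCard _

lemma lemM {A B U V : NF} (hA : Ind A) (hB : Ind B) (h : A * U = B * V) (hb : Bd (A * U))
    {C0 C1 : Type} [Group C0] [Group C1] (h0 : Gen U C0) (h1 : Gen V C1) : A = B ∧ U = V := by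
  by_cases hVU : Le V U
  · have e := alpha h hVU h1
    rcases hB.2 _ _ e with h2 | h2
    · exact (hA.1 h2).elim
    rw [h2, mul_one] at e
    subst e
    exact ⟨rfl, Le.anti (pp2 hA h hb h0) hVU⟩
  by_cases hUV : Le U V
  · have e := alpha h.symm hUV h0
    rcases hA.2 _ _ e with h2 | h2
    · exact (hB.1 h2).elim
    rw [h2, mul_one] at e
    subst e
    exact (hVU (pp2 hA h.symm (h ▸ hb) h1)).elim
  exfalso
  obtain ⟨p, hp, a1, R, _, a2, a3⟩ := pp1a h hb h0 h1 hUV hVU
  obtain ⟨q, hq, b1, -⟩ := pp1a h.symm (h ▸ hb) h1 h0 hVU hUV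
  have := Fact.mk hq
  have := (b1 R a2).1
  obtain ⟨k, hk⟩ := IsPGroup.iff_card.1 (b1 R a2).2
  have e : p = q := (Nat.prime_dvd_prime_iff_eq hp hq).1 (hp.dvd_of_dvd_pow (hk ▸ a3))
  subst e
  have emb : ∀ (T : Type) [Group T], Injective (sgH T (Zc p)) := fun T _ a b hab => by
    have := congrFun (congrArg RegularWreathProduct.left hab) 1
    simpa [sgH, sg_self] using this
  refine not_closed hp hA a1 fun T _ hT => ?_
  have t1 := wc hp h h0 hUV a1 b1 hT
  exact hered_p hp A a1 _ (emb _) (wc hp h.symm h1 hVU b1 a1 t1)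

lemma prod_ne (l : List NF) (h1 : l ≠ []) (h2 : ∀ A ∈ l, Ind A) : l.prod ≠ 1 := by
  obtain ⟨A, l, rfl⟩ := List.exists_cons_of_ne_nil h1
  intro h
  rw [List.prod_cons] at h
  have : l.prod = 1 := Le.anti (h ▸ le_mul A l.prod) fun G _ hG =>
    have : Subsingleton G := hG
    NF.triv _ G
  rw [this, mul_one] at h
  exact (h2 A List.mem_cons_self).1 h

lemma na_prod (l : List NF) (h1 : l ≠ []) (h2 : ∀ A ∈ l, Ind A) (hb : Bd l.prod) : NA l.prod := by
  induction l with
  | nil => exact (h1 rfl).elim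
  | cons A l ih =>
    intro p hp hle
    have hA := h2 A List.mem_cons_self
    rw [List.prod_cons] at hle hb
    by_cases hl : l = []
    · subst hl
      rw [List.prod_nil, mul_one] at hle
      exact not_abs hp hA hle
    have h3 : ∀ B ∈ l, Ind B := fun B hB => h2 B (List.mem_cons_of_mem _ hB)
    have hb' := hb.mono (le_mul A l.prod)
    obtain ⟨C, _, hC⟩ := exists_gen _ hb' (prod_ne l hl h3) (ih hl h3 hb')
    rw [← mul_assoc] at hle
    exact not_abs hp hA (rc hC hle)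

theorem uniq (l : List NF) : ∀ m : List NF, l ≠ [] → m ≠ [] → (∀ A ∈ l, Ind A) → (∀ A ∈ m, Ind A) →
    Bd l.prod → l.prod = m.prod → l = m := by
  induction l with
  | nil => intro _ h; exact (h rfl).elim
  | cons A l ih =>
    intro m _ hm h2 h3 hb h
    obtain ⟨B, m, rfl⟩ := List.exists_cons_of_ne_nil hm
    have hA := h2 A List.mem_cons_self
    have hB := h3 B List.mem_cons_self
    have h2' : ∀ X ∈ l, Ind X := fun X hX => h2 X (List.mem_cons_of_mem _ hX)
    have h3' : ∀ X ∈ m, Ind X := fun X hX => h3 X (List.mem_cons_of_mem _ hX)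
    rw [List.prod_cons] at hb
    rw [List.prod_cons, List.prod_cons] at h
    by_cases hl : l = []
    · subst hl
      rw [List.prod_nil, mul_one] at h
      rcases hA.2 _ _ h with e | e
      · exact (hB.1 e).elim
      · have : m = [] := by
          by_contra hm
          exact prod_ne m hm h3' e
        subst this
        rw [h]; simp
    by_cases hm : m = []
    · subst hm
      rw [List.prod_nil, mul_one] at h
      rcases hB.2 _ _ h.symm with e | e
      · exact (hA.1 e).elim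
      · exact (prod_ne l hl h2' e).elim
    have b1 := hb.mono (le_mul A l.prod)
    have b2 := (h ▸ hb).mono (le_mul B m.prod)
    obtain ⟨C, _, hC⟩ := exists_gen _ b1 (prod_ne l hl h2') (na_prod l hl h2' b1)
    obtain ⟨D, _, hD⟩ := exists_gen _ b2 (prod_ne m hm h3') (na_prod m hm h3' b2)
    obtain ⟨e1, e2⟩ := lemM hA hB h hb hC hD
    rw [e1, ih m hl hm h2' h3' b1 e2]

end Pool.Agent.H.MP_456268_al
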